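import Pool.Agent.VFL.Solv
import Pool.Agent.Hhelper49.Srf.Final

/-!
# Virtual forms of Serre's question
-/

set_option linter.unusedSectionVars false

namespace Pool.Agent.VFL

open Pool.Agent.Hhelper49.Srr Pool.Agent.Hhelper49.Srf Pool.Agent.SFP

/-- restriction to subgroups of finite index detects stably free modules -/
def InjR : Prop :=
  ∀ (G : Type) [Group G], TypeFP G → ∀ H : Subgroup G, H.FiniteIndex →
    ∀ (P : Type) [AddCommGroup P] [Module (MonoidAlgebra ℤ G) P],
      Module.Finite (MonoidAlgebra ℤ G) P → Module.Projective (MonoidAlgebra ℤ G) P →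
        StFree H (Pull H.subtype P) → StFree G P

/-- restriction to normal subgroups of prime index detects stably free modules -/
def InjRP : Prop :=
  ∀ (G : Type) [Group G], TypeFP G → ∀ H : Subgroup G, H.Normal → H.index.Prime →
    ∀ (P : Type) [AddCommGroup P] [Module (MonoidAlgebra ℤ G) P],
      Module.Finite (MonoidAlgebra ℤ G) P → Module.Projective (MonoidAlgebra ℤ G) P →
        StFree H (Pull H.subtype P) → StFree G P

/-- the last syzygy of a module of type (FP) -/
theorem last_syzygy {R : Type} [Ring R] (n : ℕ) : ∀ (M : Type) [AddCommGroup M] [Module R M],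
    FPl R n M → ∃ (P : Type) (_ : AddCommGroup P) (_ : Module R P), Module.Finite R P ∧
      Module.Projective R P ∧ ∀ {C : ∀ (M : Type) [AddCommGroup M] [Module R M], Prop},
        Cls23 R C → C R → (C M ↔ C P) := by
  induction n with
  | zero =>
    intro M _ _ h
    exact ⟨M, inferInstance, inferInstance, h.1, h.2, fun _ _ => Iff.rfl⟩
  | succ n ih =>
    intro M _ _ h
    obtain ⟨k, f, hf, hk⟩ := h
    obtain ⟨P, i1, i2, h1, h2, h3⟩ := ih _ hk
    refine ⟨P, i1, i2, h1, h2, ?_⟩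
    intro C hC hR
    rw [← h3 hC hR]
    constructor
    · intro h4
      exact hC.ker (LinearMap.ker f).subtype f (Submodule.injective_subtype _) hf
        (Submodule.range_subtype _) (cls_pow hC hR k) h4
    · intro h4
      exact hC.coker (LinearMap.ker f).subtype f (Submodule.injective_subtype _) hf
        (Submodule.range_subtype _) h4 (cls_pow hC hR k)

/-- the finiteness obstruction of a group and of its subgroups of finite index -/
theorem obstruction (G : Type) [Group G] (hG : TypeFP G) :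
    ∃ (P : Type) (_ : AddCommGroup P) (_ : Module (MonoidAlgebra ℤ G) P),
      Module.Finite (MonoidAlgebra ℤ G) P ∧ Module.Projective (MonoidAlgebra ℤ G) P ∧
      (TypeFF G ↔ StFree G P) ∧
      ∀ H : Subgroup G, H.FiniteIndex → (TypeFF H ↔ StFree H (Pull H.subtype P)) := by
  obtain ⟨n, hn⟩ := fp_of_typeFP G hG
  obtain ⟨P, i1, i2, h1, h2, h3⟩ := last_syzygy n _ hn
  refine ⟨P, i1, i2, h1, h2, ?_, ?_⟩
  · rw [← ff_iff_stFree G P h2, ← h3 (cls23_ff _) ⟨0, inferInstance, inferInstance⟩]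
    exact ⟨ff_of_typeFF G, typeFF_of_ff G⟩
  · intro H hH
    have : H.FiniteIndex := hH
    obtain ⟨h4, h5⟩ := pull_fin_proj H P h1 h2
    obtain ⟨k, ⟨e⟩⟩ := pull_self H
    rw [← ff_iff_stFree H (Pull H.subtype P) h5,
      ← h3 (cls23_pull H.subtype (cls23_ff (ZG H))) (ff_iso e (ff_pow k))]
    constructor
    · intro h
      exact ff_iso (trivPull H.subtype).symm (ff_of_typeFF H h)
    · intro h
      exact typeFF_of_ff H (ff_iso (trivPull H.subtype) h)

theorem injR_of_virt (hV : Virt) : InjR := by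
  intro G _ hG H hH P _ _ h1 h2 hP
  obtain ⟨R, _, i, r, -, h3, h4, h5⟩ := point_res G hG P h1 h2
  rw [← stFree_one, ← h4 1, ← typeFF_iff]
  have hfin : H.FiniteIndex := hH
  refine hV R h3 (H.comap r) (comap_fin _ _) ?_
  rw [typeFF_iff, h5 H hH 1, stFree_one]
  exact hP

theorem injRP_of_virtP (hV : VirtP) : InjRP := by
  intro G _ hG H hH hidx P _ _ h1 h2 hP
  obtain ⟨R, _, i, r, hr, h3, h4, h5⟩ := point_res G hG P h1 h2
  rw [← stFree_one, ← h4 1, ← typeFF_iff]
  have hfin : H.FiniteIndex := ⟨hidx.ne_zero⟩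
  have hs : Function.Surjective r := fun g => ⟨i g, hr g⟩
  refine hV R h3 (H.comap r) inferInstance ?_ ?_
  · rw [Subgroup.index_comap_of_surjective H hs]
    exact hidx
  · rw [typeFF_iff, h5 H hfin 1, stFree_one]
    exact hP

theorem virt_of_injR (h : InjR) : Virt := by
  intro G _ hG H hH hF
  obtain ⟨P, _, _, h1, h2, h3, h4⟩ := obstruction G hG
  rw [h3]
  exact h G hG H hH P h1 h2 ((h4 H hH).1 hF)

theorem virtP_of_injRP (h : InjRP) : VirtP := by
  intro G _ hG H hH hidx hF
  obtain ⟨P, _, _, h1, h2, h3, h4⟩ := obstruction G hG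
  rw [h3]
  exact h G hG H hH hidx P h1 h2 ((h4 H ⟨hidx.ne_zero⟩).1 hF)

theorem virt_tfae : List.TFAE [Virt, VirtP, InjR, InjRP] := by
  tfae_have 1 → 2 := fun h G _ hG H _ hidx hF => h G hG H ⟨hidx.ne_zero⟩ hF
  tfae_have 2 → 1 := virt_of_virtP
  tfae_have 1 → 3 := injR_of_virt
  tfae_have 3 → 1 := virt_of_injR
  tfae_have 2 → 4 := injRP_of_virtP
  tfae_have 4 → 2 := virtP_of_injRP
  tfae_finish

/-- a finitely generated projective module whose `m`-th power is stably free is the finiteness obstruction of a group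
`Δ` with a normal subgroup of index `m` of type (FF) with cyclic quotient -/
theorem torsion_point (G : Type) [Group G] (hG : TypeFP G) (P : Type) [AddCommGroup P]
    [Module (MonoidAlgebra ℤ G) P] (h1 : Module.Finite (MonoidAlgebra ℤ G) P)
    (h2 : Module.Projective (MonoidAlgebra ℤ G) P) (m : ℕ) (hm : m ≠ 0)
    (hP : StFree G (Fin m → P)) :
    ∃ (Δ : Type) (_ : Group Δ) (θ : Δ →* Multiplicative (ZMod m)), Function.Surjective θ ∧
      TypeFP Δ ∧ TypeFF θ.ker ∧ (TypeFF Δ ↔ StFree G P) := by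
  have : NeZero m := ⟨hm⟩
  obtain ⟨R, _, i, r, -, h3, h4⟩ := point_fp G hG P h1 h2
  refine ⟨R × FreeGroup (Fin 2), inferInstance, chG R m, chG_surj R m, prod_fp R h3 2, ?_, ?_⟩
  · rw [typeFF_iff, chG_freeRes R h3 m 1, one_mul, h4 m]
    exact hP
  · rw [typeFF_iff, prod_freeRes R h3 1 1, one_mul, h4 1, stFree_one]

theorem torsionFree_of_virt (hV : Virt) (G : Type) [Group G] (hG : TypeFP G) (P : Type)
    [AddCommGroup P] [Module (MonoidAlgebra ℤ G) P] (h1 : Module.Finite (MonoidAlgebra ℤ G) P)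
    (h2 : Module.Projective (MonoidAlgebra ℤ G) P) (m : ℕ) (hm : m ≠ 0)
    (hP : StFree G (Fin m → P)) : StFree G P := by
  have : NeZero m := ⟨hm⟩
  obtain ⟨Δ, _, θ, hθ, h3, h4, h5⟩ := torsion_point G hG P h1 h2 m hm hP
  rw [← h5]
  refine hV Δ h3 θ.ker ?_ h4
  constructor
  rw [Subgroup.index_ker, MonoidHom.range_eq_top.2 hθ, Subgroup.card_top,
    Nat.card_eq_fintype_card, Fintype.card_multiplicative, ZMod.card]
  exact hm

/-- some power of every finitely generated projective module is stably free -/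
def Rat : Prop :=
  ∀ (G : Type) [Group G], TypeFP G → ∀ (P : Type) [AddCommGroup P]
    [Module (MonoidAlgebra ℤ G) P], Module.Finite (MonoidAlgebra ℤ G) P →
      Module.Projective (MonoidAlgebra ℤ G) P → ∃ m : ℕ, m ≠ 0 ∧ StFree G (Fin m → P)

/-- every group of type (FP) becomes (FF) after multiplication with some free group of rank at least two -/
def RatF : Prop :=
  ∀ (G : Type) [Group G], TypeFP G → ∃ m : ℕ, m ≠ 0 ∧ TypeFF (G × FreeGroup (Fin (m + 1)))

theorem freeRes_of_pow (G : Type) [Group G] (hG : TypeFP G) :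
    ∃ (P : Type) (_ : AddCommGroup P) (_ : Module (MonoidAlgebra ℤ G) P),
      Module.Finite (MonoidAlgebra ℤ G) P ∧ Module.Projective (MonoidAlgebra ℤ G) P ∧
      ∀ m, (FreeRes m G ↔ StFree G (Fin m → P)) := by
  obtain ⟨n, hn⟩ := fp_of_typeFP G hG
  obtain ⟨P, i1, i2, h1, h2, h3⟩ := last_syzygy n _ hn
  refine ⟨P, i1, i2, h1, h2, ?_⟩
  intro m
  rw [← ff_iff_stFree G (Fin m → P) (proj_pow P h1 h2 m),
    ← h3 (cls23_pow (cls23_ff _) m) (ff_pow m), freeRes_iff]

theorem rat_iff : Rat ↔ RatF := by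
  constructor
  · intro h G _ hG
    obtain ⟨P, _, _, h1, h2, h3⟩ := freeRes_of_pow G hG
    obtain ⟨m, hm, h4⟩ := h G hG P h1 h2
    refine ⟨m, hm, ?_⟩
    rw [typeFF_iff, prod_freeRes G hG m 1, one_mul, h3 m]
    exact h4
  · intro h G _ hG P _ _ h1 h2
    obtain ⟨R, _, i, r, -, h3, h4⟩ := point_fp G hG P h1 h2
    obtain ⟨m, hm, h5⟩ := h R h3
    refine ⟨m, hm, ?_⟩
    rw [typeFF_iff, prod_freeRes R h3 m 1, one_mul, h4 m] at h5
    exact h5

theorem serre_split : (∀ (G : Type) [Group G], TypeFP G → TypeFF G) ↔ Virt ∧ Rat := by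
  constructor
  · intro h
    refine ⟨fun G _ hG _ _ _ => h G hG, ?_⟩
    intro G _ hG P _ _ h1 h2
    refine ⟨1, one_ne_zero, ?_⟩
    rw [stFree_one]
    exact serre_iff.1 h G hG P h1 h2
  · rintro ⟨hV, hR⟩
    refine serre_iff.2 ?_
    intro G _ hG P _ _ h1 h2
    obtain ⟨m, hm, h3⟩ := hR G hG P h1 h2
    exact torsionFree_of_virt hV G hG P h1 h2 m hm h3

/-- Serre's question up to finite index -/
theorem serre_virtual : (∀ (G : Type) [Group G], TypeFP G → TypeFF G) ↔
    ∀ (G : Type) [Group G], TypeFP G → ∃ H : Subgroup G, H.FiniteIndex ∧ TypeFF H := by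
  constructor
  · intro h G _ hG
    exact ⟨⊤, inferInstance, typeFF_congr Subgroup.topEquiv.symm (h G hG)⟩
  · intro h G _ hG
    by_contra hF
    obtain ⟨G', iG', j', h1, h2, p, hp, h3⟩ := prime_order G hG hF
    obtain ⟨Γ, iΓ, j, k1, k2, k3, k4⟩ := embed G' h2
    have h4 : ∀ m : ℕ, FreeRes m Γ ↔ p ∣ m := fun m => (k3 m).trans (h3 m)
    obtain ⟨H, hH, hHF⟩ := h Γ k2
    rw [k4 H hH] at hHF
    have h5 : TypeFF Γ := typeFF_congr Subgroup.topEquiv hHF
    have h6 := (h4 1).1 (freeRes_of_typeFF Γ h5)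
    rw [Nat.dvd_one] at h6
    rcases hp with h7 | h7
    · omega
    · exact h7.one_lt.ne' h6

end Pool.Agent.VFL
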