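import Pool.Agent.VFL.Equiv

/-!
# Rational half of Serre's question and subgroups of finite index of `G × F₂`
-/

set_option linter.unusedSectionVars false

namespace Pool.Agent.VFL

open Pool.Agent.Hhelper49.Srr Pool.Agent.Hhelper49.Srf Pool.Agent.SFP

/-- for every `G` of type (FP) the group `G × F₂` has a subgroup of finite index of type (FF) -/
def RatFi : Prop :=
  ∀ (G : Type) [Group G], TypeFP G → ∃ H : Subgroup (G × FF2), H.FiniteIndex ∧ TypeFF H

theorem ratFi_of_ratF (h : RatF) : RatFi := by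
  intro G _ hG
  obtain ⟨m, hm, h1⟩ := h G hG
  have : NeZero m := ⟨hm⟩
  refine ⟨(chG G m).ker, ?_, ?_⟩
  · constructor
    rw [Subgroup.index_ker, MonoidHom.range_eq_top.2 (chG_surj G m), Subgroup.card_top,
      Nat.card_eq_fintype_card, Fintype.card_multiplicative, ZMod.card]
    exact hm
  · rw [typeFF_iff, chG_freeRes G hG m 1, one_mul]
    rw [typeFF_iff, prod_freeRes G hG m 1, one_mul] at h1
    exact h1

theorem eq_KL (G : Type) [Group G] (hG : ∀ H : Subgroup G, H.FiniteIndex → H = ⊤)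
    (H : Subgroup (G × FF2)) (hH : H.FiniteIndex) :
    ∃ L : Subgroup FF2, L.FiniteIndex ∧ H = KL G L := by
  have h1 : ∀ g : G, ((g, 1) : G × FF2) ∈ H := by
    intro g
    have h2 : H.comap (MonoidHom.inl G FF2) = ⊤ := hG _ (comap_fin _ _)
    have h3 : g ∈ H.comap (MonoidHom.inl G FF2) := by
      rw [h2]
      trivial
    exact h3
  refine ⟨H.comap (MonoidHom.inr G FF2), comap_fin _ _, ?_⟩
  ext ⟨g, x⟩
  have h2 : ((g, x) : G × FF2) = (g, 1) * (1, x) := by
    rw [Prod.mk_mul_mk, mul_one, one_mul]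
  constructor
  · intro h3
    change ((1, x) : G × FF2) ∈ H
    rw [h2] at h3
    exact (H.mul_mem_cancel_left (h1 g)).1 h3
  · intro h3
    have h4 : ((1, x) : G × FF2) ∈ H := h3
    rw [h2]
    exact H.mul_mem (h1 g) h4

theorem exists_pow_of_ratFi (h : RatFi) (G : Type) [Group G] (hG : TypeFP G) :
    ∃ m : ℕ, m ≠ 0 ∧ FreeRes m G := by
  obtain ⟨Γ, iΓ, j, -, k2, k3, k4⟩ := embed G hG
  obtain ⟨H, hH, hF⟩ := h Γ k2
  obtain ⟨L, hL, rfl⟩ := eq_KL Γ k4 H hH
  refine ⟨L.index, hL.index_ne_zero, ?_⟩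
  rw [← k3]
  have h1 := (ker_freeRes Γ k2 L 1).1 ((typeFF_iff _).1 hF)
  rwa [one_mul] at h1

theorem ratF_of_ratFi (h : RatFi) : RatF := by
  intro G _ hG
  obtain ⟨m, hm, h1⟩ := exists_pow_of_ratFi h G hG
  refine ⟨m, hm, ?_⟩
  rw [typeFF_iff, prod_freeRes G hG m 1, one_mul]
  exact h1

theorem rat_tfae : List.TFAE [Rat, RatF, RatFi] := by
  tfae_have 1 ↔ 2 := rat_iff
  tfae_have 2 → 3 := ratFi_of_ratF
  tfae_have 3 → 2 := ratF_of_ratFi
  tfae_finish

/-- type (FF) is a commensurability invariant of groups of type (FP) -/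
def Comm : Prop :=
  ∀ (G K : Type) [Group G] [Group K], TypeFP G → TypeFP K → ∀ (A : Subgroup G) (B : Subgroup K),
    A.FiniteIndex → B.FiniteIndex → Nonempty (A ≃* B) → (TypeFF G ↔ TypeFF K)

theorem comm_iff : Comm ↔ Virt := by
  constructor
  · intro h G _ hG H hH hF
    have hHP : TypeFP H := typeFP_of_typeFF H hF
    exact (h G H hG hHP H ⊤ hH inferInstance ⟨Subgroup.topEquiv.symm⟩).2 hF
  · intro h G K _ _ hG hK A B hA hB ⟨e⟩
    constructor
    · intro hF
      exact h K hK B hB (typeFF_congr e (typeFF_subgroup G hF A))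
    · intro hF
      exact h G hG A hA (typeFF_congr e.symm (typeFF_subgroup K hF B))

end Pool.Agent.VFL
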