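import Pool.Agent.VFL.RestP

/-!
# The subgroups `G × L` of `G × F₂`, `L` of finite index in `F₂`
-/

set_option linter.unusedSectionVars false

namespace Pool.Agent.VFL

open Pool.Agent.Hhelper49.Srr Pool.Agent.Hhelper49.Srf Pool.Agent.SFP

/-- if `0 → A^(k+1) → A → B → 0` is exact and `A` is (FP) then `B^m` is (FF) iff `A^(m k)` is (FF) -/
theorem euler_pow {R : Type} [Ring R] (k m : ℕ) {N B : Type} [AddCommGroup N] [Module R N]
    [AddCommGroup B] [Module R B] (f : (Fin (k + 1) → N) →ₗ[R] N) (g : N →ₗ[R] B)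
    (hf : Function.Injective f) (hg : Function.Surjective g)
    (hfg : LinearMap.range f = LinearMap.ker g) (hN : FP R N) :
    FF R (Fin m → B) ↔ FF R (Fin (m * k) → N) := by
  have hNk : FP R (Fin (k + 1) → N) := fp_pi (fun _ : Fin (k + 1) => N) fun _ => hN
  have hTr : FP R B := fp_coker f g hf hg hfg hNk hN
  have hsim : Sim R (Fin m → N) ((Fin m → Fin (k + 1) → N) × (Fin m → B)) :=
    Sim_ext (f.compLeft (Fin m)) (g.compLeft (Fin m)) (compLeft_inj m f hf)
      (compLeft_surj m g hg) (compLeft_exact m f g hfg)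
      (fp_pi (fun _ : Fin m => Fin (k + 1) → N) fun _ => hNk)
      (fp_pi (fun _ : Fin m => B) fun _ => hTr)
  let e0 : Fin m ⊕ Fin (m * k) ≃ Fin m × Fin (k + 1) := Fintype.equivOfCardEq (by
    rw [Fintype.card_sum, Fintype.card_prod, Fintype.card_fin, Fintype.card_fin, Fintype.card_fin,
      mul_add, mul_one, add_comm])
  let e1 : (Fin m → Fin (k + 1) → N) ≃ₗ[R] (Fin m → N) × (Fin (m * k) → N) :=
    ((LinearEquiv.curry R N (Fin m) (Fin (k + 1))).symm.trans
      (LinearEquiv.funCongrLeft R N e0)).trans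
        (LinearEquiv.sumArrowLequivProdArrow (Fin m) (Fin (m * k)) R N)
  obtain ⟨C, i1, i2, h1, h2, h3⟩ := hsim
  let e2 : ((((Fin m → N) × (Fin (m * k) → N)) × (Fin m → B)) × C) ≃ₗ[R]
      (((Fin m → N) × C) × ((Fin (m * k) → N) × (Fin m → B))) :=
    { toFun := fun p => ((p.1.1.1, p.2), (p.1.1.2, p.1.2))
      map_add' := fun _ _ => rfl
      map_smul' := fun _ _ => rfl
      invFun := fun p => (((p.1.1, p.2.1), p.2.2), p.1.2)
      left_inv := fun _ => rfl
      right_inv := fun _ => rfl }
  let e3 : (((Fin m → Fin (k + 1) → N) × (Fin m → B)) × C) ≃ₗ[R]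
      ((((Fin m → N) × (Fin (m * k) → N)) × (Fin m → B)) × C) :=
    LinearEquiv.prodCongr (LinearEquiv.prodCongr e1 (LinearEquiv.refl R (Fin m → B)))
      (LinearEquiv.refl R C)
  have h4 : FF R (((Fin m → N) × C) × ((Fin (m * k) → N) × (Fin m → B))) := ff_iso (e3.trans e2) h3
  have h5 : FF R ((Fin (m * k) → N) × (Fin m → B)) := ff_right h4 h2
  exact ⟨fun h6 => ff_left h5 h6, fun h6 => ff_right h5 h6⟩

/-- the free group of rank two -/
abbrev FF2 : Type := FreeGroup (Fin 2)

section
variable (G : Type) [Group G] (L : Subgroup FF2)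

/-- the subgroup `G × L` -/
abbrev KL : Subgroup (G × FF2) := L.comap (MonoidHom.snd G FF2)

/-- `G → G × L` -/
def kinc : G →* KL G L :=
  MonoidHom.mk' (fun g => ⟨(g, 1), L.one_mem⟩) (by
    intro a b
    apply Subtype.ext
    exact Prod.ext rfl (one_mul (1 : FF2)).symm)

/-- `G × L → G` -/
def kret : KL G L →* G := (MonoidHom.fst G FF2).comp (KL G L).subtype

theorem kret_kinc (g : G) : kret G L (kinc G L g) = g := rfl

theorem kinc_inj : Function.Injective (kinc G L) := by
  intro a b h
  rw [← kret_kinc G L a, ← kret_kinc G L b, h]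

end

theorem ker_ind (G : Type) [Group G] (L : Subgroup FF2) [Fintype (resFQ L)] :
    Induced (kinc G L) (resFQ L → Triv G) (Pull (KL G L).subtype (PN G FF2)) := by
  classical
  let w : resFQ L → FF2 := fun c => c.out
  let i : (resFQ L → Triv G) →+ Pull (KL G L).subtype (PN G FF2) :=
    { toFun := fun v => ∑ j, (MonoidAlgebra.single (w j) (v j : ℤ) : MonoidAlgebra ℤ FF2)
      map_zero' := by
        change (∑ j, (MonoidAlgebra.single (w j) (0 : ℤ) : MonoidAlgebra ℤ FF2)) = 0
        simp
      map_add' := by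
        intro u v
        change (∑ j, (MonoidAlgebra.single (w j) ((u j : ℤ) + (v j : ℤ)) : MonoidAlgebra ℤ FF2)) =
          (∑ j, (MonoidAlgebra.single (w j) (u j : ℤ) : MonoidAlgebra ℤ FF2)) +
            ∑ j, (MonoidAlgebra.single (w j) (v j : ℤ) : MonoidAlgebra ℤ FF2)
        rw [← Finset.sum_add_distrib]
        exact Finset.sum_congr rfl fun j _ => MonoidAlgebra.single_add _ _ _ }
  let π : Pull (KL G L).subtype (PN G FF2) →+ (resFQ L → Triv G) :=
    { toFun := fun x => fun l => ((x.un.un : MonoidAlgebra ℤ FF2).coeff (w l) : ℤ)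
      map_zero' := by
        funext l
        rfl
      map_add' := by
        intro x y
        funext l
        rfl }
  have hact : ∀ (g : KL G L) (v : resFQ L → Triv G), ((act g (i v)).un.un : MonoidAlgebra ℤ FF2) =
      ∑ j, (MonoidAlgebra.single ((g : G × FF2).2 * w j) (v j : ℤ) : MonoidAlgebra ℤ FF2) := by
    intro g v
    have h1 := Pull.act_apply (κ := (KL G L).subtype) g (i v)
    have h2 := Pull.act_apply (κ := MonoidHom.snd G FF2) (g : G × FF2) (i v).un
    have h3 : (act g (i v)).un.un = act ((g : G × FF2).2) ((i v).un.un : MonoidAlgebra ℤ FF2) := by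
      rw [h1]
      exact h2
    rw [h3]
    change (MonoidAlgebra.of ℤ FF2 (g : G × FF2).2) • (∑ j, (MonoidAlgebra.single (w j) (v j : ℤ) :
      MonoidAlgebra ℤ FF2)) = _
    rw [Finset.smul_sum]
    refine Finset.sum_congr rfl fun j _ => ?_
    rw [MonoidAlgebra.of_apply, smul_eq_mul, MonoidAlgebra.single_mul_single, one_mul]
  have hinjw : ∀ (x : FF2) (j l : resFQ L), x ∈ L → x * w j = w l → j = l ∧ x = 1 := by
    intro x j l hx h
    have h1 : w l * (w j)⁻¹ ∈ L := by
      rw [← h, mul_inv_cancel_right]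
      exact hx
    have h2 : (QuotientGroup.rightRel L).r (w j) (w l) := QuotientGroup.rightRel_apply.mpr h1
    have h3 : (Quotient.mk (QuotientGroup.rightRel L) (w j) : resFQ L) =
        Quotient.mk (QuotientGroup.rightRel L) (w l) := Quotient.sound h2
    have h4 : j = l := by
      have h5 : (Quotient.mk (QuotientGroup.rightRel L) j.out : resFQ L) = j := Quotient.out_eq j
      have h6 : (Quotient.mk (QuotientGroup.rightRel L) l.out : resFQ L) = l := Quotient.out_eq l
      rw [← h5, ← h6]
      exact h3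
    subst h4
    exact ⟨rfl, mul_eq_right.1 h⟩
  have hπ : ∀ (g : KL G L) (v : resFQ L → Triv G) (l : resFQ L), π (act g (i v)) l =
      (if (g : G × FF2).2 = 1 then v l else 0 : ℤ) := by
    intro g v l
    have hg : (g : G × FF2).2 ∈ L := g.2
    change (((act g (i v)).un.un : MonoidAlgebra ℤ FF2).coeff (w l) : ℤ) = _
    rw [hact]
    rw [MonoidAlgebra.coeff_sum, Finsupp.finsetSum_apply]
    have h1 : ∀ j, ((MonoidAlgebra.single ((g : G × FF2).2 * w j) (v j : ℤ) :
        MonoidAlgebra ℤ FF2).coeff (w l) : ℤ) =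
          if (g : G × FF2).2 * w j = w l then (v j : ℤ) else 0 := by
      intro j
      change (Finsupp.single ((g : G × FF2).2 * w j) (v j : ℤ) : FF2 →₀ ℤ) (w l) = _
      rw [Finsupp.single_apply]
      congr
    rw [Finset.sum_congr rfl fun j _ => h1 j]
    by_cases hg1 : (g : G × FF2).2 = 1
    · rw [if_pos hg1, Finset.sum_eq_single l]
      · rw [hg1, one_mul, if_pos rfl]
      · intro j _ hj
        apply if_neg
        intro h2
        exact hj (hinjw _ _ _ hg h2).1
      · intro h
        exact absurd (Finset.mem_univ l) h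
    · rw [if_neg hg1]
      refine Finset.sum_eq_zero fun j _ => ?_
      apply if_neg
      intro h2
      exact hg1 (hinjw _ _ _ hg h2).2
  refine ⟨i, π, ?_, ?_, ?_, ?_⟩
  · intro h v
    have h1 : act h v = v := by
      funext j
      exact act_triv (G := G) (g := h) (v j)
    rw [h1]
    change (∑ j, (MonoidAlgebra.single (w j) (v j : ℤ) : MonoidAlgebra ℤ FF2)) =
      ((act (kinc G L h) (i v)).un.un : MonoidAlgebra ℤ FF2)
    rw [hact]
    refine Finset.sum_congr rfl fun j _ => ?_
    change _ = (MonoidAlgebra.single ((1 : FF2) * w j) (v j : ℤ) : MonoidAlgebra ℤ FF2)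
    rw [one_mul]
  · intro x
    induction (x : MonoidAlgebra ℤ FF2) using MonoidAlgebra.induction_linear with
    | zero => exact AddSubgroup.zero_mem _
    | add a b ha hb => exact AddSubgroup.add_mem _ ha hb
    | single a r =>
      apply AddSubgroup.subset_closure
      let l : resFQ L := Quotient.mk (QuotientGroup.rightRel L) a
      have hk : ((1 : G), a * (w l)⁻¹) ∈ KL G L := resF_rel L a
      refine ⟨⟨(1, a * (w l)⁻¹), hk⟩, Pi.single l r, ?_⟩
      change (MonoidAlgebra.single a r : MonoidAlgebra ℤ FF2) =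
        ((act (⟨(1, a * (w l)⁻¹), hk⟩ : KL G L) (i (Pi.single l r))).un.un : MonoidAlgebra ℤ FF2)
      rw [hact]
      symm
      rw [Finset.sum_eq_single l]
      · change (MonoidAlgebra.single (a * (w l)⁻¹ * w l)
          (((Pi.single l r : resFQ L → Triv G) l : Triv G) : ℤ) : MonoidAlgebra ℤ FF2) = _
        rw [inv_mul_cancel_right]
        congr 1
        exact Pi.single_eq_same (M := fun _ : resFQ L => ℤ) l r
      · intro j _ hj
        have h1 : ((Pi.single l r : resFQ L → Triv G) j : ℤ) = 0 :=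
          Pi.single_eq_of_ne (M := fun _ : resFQ L => ℤ) hj r
        rw [h1]
        exact MonoidAlgebra.single_zero _
      · intro h
        exact absurd (Finset.mem_univ l) h
  · intro h v
    funext l
    have h1 : act h v = v := by
      funext j
      exact act_triv (G := G) (g := h) (v j)
    have h2 := hπ (kinc G L h) v l
    rw [h2, h1]
    exact if_pos rfl
  · intro g v hg
    funext l
    rw [hπ]
    apply if_neg
    intro h1
    apply hg
    exact ⟨(g : G × FF2).1, Subtype.ext (Prod.ext rfl h1.symm)⟩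

/-- the obstruction of `G × L` is the index of `L` times the obstruction of `G` -/
theorem ker_freeRes (G : Type) [Group G] (hG : TypeFP G) (L : Subgroup FF2) [L.FiniteIndex]
    (j : ℕ) : FreeRes j (KL G L) ↔ FreeRes (j * L.index) G := by
  have hfQ : Finite (resFQ L) :=
    Finite.of_equiv _ (QuotientGroup.quotientRightRelEquivQuotientLeftRel L).symm
  have : Fintype (resFQ L) := Fintype.ofFinite _
  have hidx : L.index = Fintype.card (resFQ L) := by
    rw [Subgroup.index, ← Nat.card_eq_fintype_card]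
    exact (Nat.card_congr (QuotientGroup.quotientRightRelEquivQuotientLeftRel L)).symm
  obtain ⟨f, g, hf, hg, hfg⟩ := PN_exact G 2
  let N := Pull (KL G L).subtype (PN G FF2)
  obtain ⟨e⟩ := pull_pi (KL G L).subtype 2 (PN G FF2)
  have hi := ker_ind G L
  have hN : FP (ZG (KL G L)) N := ind_fp (kinc_inj G L) _ _ hi
    (fp_pi (fun _ : resFQ L => Triv G) fun _ => fp_of_typeFP G hG)
  have h1 := euler_pow (R := ZG (KL G L)) 1 j (N := N)
    (B := Pull (KL G L).subtype (Triv (G × FF2)))
    ((pullLin (KL G L).subtype f).comp e.toLinearMap) (pullLin (KL G L).subtype g)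
    (hf.comp e.injective) hg (by
      rw [LinearMap.range_comp_of_range_eq_top _ (LinearEquiv.range e)]
      exact pullLin_range (KL G L).subtype hfg) hN
  rw [mul_one] at h1
  have h2 : FreeRes j (KL G L) ↔ FF (ZG (KL G L))
      (Fin j → Pull (KL G L).subtype (Triv (G × FF2))) := by
    rw [freeRes_iff]
    exact ⟨fun h => ff_iso (LinearEquiv.piCongrRight fun _ => (trivPull (KL G L).subtype).symm) h,
      fun h => ff_iso (LinearEquiv.piCongrRight fun _ => (trivPull (KL G L).subtype)) h⟩
  have h3 : FreeRes (j * L.index) G ↔ FF (ZG G) (Fin j → resFQ L → Triv G) := by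
    rw [freeRes_iff]
    let e0 : Fin j × resFQ L ≃ Fin (j * L.index) := Fintype.equivOfCardEq (by
      rw [Fintype.card_prod, Fintype.card_fin, Fintype.card_fin, hidx])
    let e1 : (Fin (j * L.index) → Triv G) ≃ₗ[ZG G] (Fin j → resFQ L → Triv G) :=
      (LinearEquiv.funCongrLeft (ZG G) (Triv G) e0).trans
        (LinearEquiv.curry (ZG G) (Triv G) (Fin j) (resFQ L))
    exact ⟨fun h => ff_iso e1 h, fun h => ff_iso e1.symm h⟩
  rw [h2, h1, h3]
  constructor
  · intro h
    exact ind_reduce (kinc_inj G L) (Fin j → resFQ L → Triv G) _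
      (desc_ret (kinc G L) (kret G L) (kret_kinc G L))
      (fp_pi (fun _ : Fin j => _) fun _ => fp_pi (fun _ : resFQ L => Triv G) fun _ =>
        fp_of_typeFP G hG) (ind_pi _ _ j hi) h
  · intro h
    exact ind_ff (kinc_inj G L) _ _ (ind_pi _ _ j hi) h

/-- the character of `F₂` with values in `ℤ/m` -/
noncomputable def chm (m : ℕ) : FF2 →* Multiplicative (ZMod m) :=
  FreeGroup.lift (fun j : Fin 2 => if j = 0 then Multiplicative.ofAdd (1 : ZMod m) else 1)

theorem chm_zero (m : ℕ) : chm m (FreeGroup.of 0) = Multiplicative.ofAdd (1 : ZMod m) := by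
  rw [chm, FreeGroup.lift_apply_of, if_pos rfl]

theorem chm_pow (m k : ℕ) : chm m (FreeGroup.of 0 ^ k) = Multiplicative.ofAdd (k : ZMod m) := by
  rw [map_pow, chm_zero, ← ofAdd_nsmul, nsmul_one]

theorem chm_surj (m : ℕ) [NeZero m] : Function.Surjective (chm m) := by
  intro y
  refine ⟨FreeGroup.of 0 ^ (Multiplicative.toAdd y).val, ?_⟩
  rw [chm_pow, ZMod.natCast_zmod_val]
  rfl

theorem chm_index (m : ℕ) [NeZero m] : (chm m).ker.index = m := by
  rw [Subgroup.index_ker, MonoidHom.range_eq_top.2 (chm_surj m), Subgroup.card_top,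
    Nat.card_eq_fintype_card, Fintype.card_multiplicative, ZMod.card]

/-- the character of `G × F₂` with values in `ℤ/m` -/
noncomputable def chG (G : Type) [Group G] (m : ℕ) : G × FF2 →* Multiplicative (ZMod m) :=
  (chm m).comp (MonoidHom.snd G FF2)

theorem chG_surj (G : Type) [Group G] (m : ℕ) [NeZero m] : Function.Surjective (chG G m) := by
  intro y
  obtain ⟨x, hx⟩ := chm_surj m y
  exact ⟨(1, x), hx⟩

theorem chG_freeRes (G : Type) [Group G] (hG : TypeFP G) (m : ℕ) [NeZero m] (j : ℕ) :
    FreeRes j (chG G m).ker ↔ FreeRes (j * m) G := by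
  have h1 : (chm m).ker.FiniteIndex := ⟨by rw [chm_index]; exact NeZero.ne m⟩
  have h2 := ker_freeRes G hG (chm m).ker j
  rw [chm_index] at h2
  exact h2

end Pool.Agent.VFL
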