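import Pool.Agent.SFP.Fin3
import Pool.Agent.Hhelper49.Srd.ResF

/-!
# Restriction to subgroups of finite index
-/

set_option linter.unusedSectionVars false

namespace Pool.Agent.VFL

open Pool.Agent.Hhelper49.Srr Pool.Agent.Hhelper49.Srf Pool.Agent.SFP

/-- a class with two out of three which contains the ring contains its powers -/
theorem cls_pow {R : Type} [Ring R] {C : ∀ (M : Type) [AddCommGroup M] [Module R M], Prop}
    (hC : Cls23 R C) (hR : C R) (k : ℕ) : C (Fin k → R) := by
  induction k with
  | zero => exact hC.zero _ inferInstance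
  | succ k ih =>
    refine hC.ext (L := R) (M := Fin (k + 1) → R) (N := Fin k → R)
      (LinearMap.single R (fun _ : Fin (k + 1) => R) 0)
      (LinearMap.funLeft R R (Fin.succ : Fin k → Fin (k + 1))) ?_ ?_ ?_ hR ih
    · intro a b h
      have h1 := congrFun h 0
      simpa using h1
    · intro v
      refine ⟨Fin.cons 0 v, ?_⟩
      funext j
      rfl
    · ext v
      constructor
      · rintro ⟨a, rfl⟩
        rw [LinearMap.mem_ker]
        funext j
        change (Pi.single 0 a : Fin (k + 1) → R) (Fin.succ j) = 0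
        exact Pi.single_eq_of_ne (Fin.succ_ne_zero j) a
      · intro h
        rw [LinearMap.mem_ker] at h
        refine ⟨v 0, ?_⟩
        funext j
        refine Fin.cases ?_ (fun j => ?_) j
        · exact Pi.single_eq_same (M := fun _ : Fin (k + 1) => R) 0 (v 0)
        · have h1 : v (Fin.succ j) = 0 := congrFun h j
          rw [h1]
          exact Pi.single_eq_of_ne (M := fun _ : Fin (k + 1) => R) (Fin.succ_ne_zero j) (v 0)

/-- a class with two out of three which contains the ring contains the modules (FF) -/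
theorem cls_of_ff {R : Type} [Ring R] {C : ∀ (M : Type) [AddCommGroup M] [Module R M], Prop}
    (hC : Cls23 R C) (hR : C R) (M : Type) [AddCommGroup M] [Module R M] (h : FF R M) : C M := by
  obtain ⟨n, hn⟩ := h
  induction n generalizing M with
  | zero =>
    obtain ⟨h1, h2⟩ := hn
    have e := Module.Free.chooseBasis R M
    have : Finite (Module.Free.ChooseBasisIndex R M) := inferInstance
    obtain ⟨k, ⟨f⟩⟩ := Finite.exists_equiv_fin (Module.Free.ChooseBasisIndex R M)
    exact hC.iso ((e.reindex f).equivFun).symm (cls_pow hC hR k)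
  | succ n ih =>
    obtain ⟨k, f, hf, hk⟩ := hn
    exact hC.coker (LinearMap.ker f).subtype f (Submodule.injective_subtype _) hf
      (Submodule.range_subtype _) (ih _ hk) (cls_pow hC hR k)

/-- the group ring over the group ring of a subgroup of finite index -/
theorem pull_self {G : Type} [Group G] (H : Subgroup G) [H.FiniteIndex] :
    ∃ k : ℕ, Nonempty ((Fin k → ZG H) ≃ₗ[ZG H] Pull H.subtype (ZG G)) := by
  classical
  have hfQ : Finite (resFQ H) :=
    Finite.of_equiv _ (QuotientGroup.quotientRightRelEquivQuotientLeftRel H).symm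
  have : Fintype (resFQ H) := Fintype.ofFinite _
  obtain ⟨k, ⟨f⟩⟩ := Finite.exists_equiv_fin (resFQ H)
  let e : (resFQ H → ZG H) ≃+ (Pull H.subtype (ZG G)) :=
    { toFun := fun x => Pull.mk H.subtype (resFPsi H x)
      invFun := (Equiv.ofBijective (resFPsi H) ⟨resFPsi_inj H, resFPsi_surj H⟩).symm
      left_inv := (Equiv.ofBijective (resFPsi H) ⟨resFPsi_inj H, resFPsi_surj H⟩).left_inv
      right_inv := (Equiv.ofBijective (resFPsi H) ⟨resFPsi_inj H, resFPsi_surj H⟩).right_inv
      map_add' := resFPsi_add H }
  have he : ∀ (g : H) (x : resFQ H → ZG H), e (act g x) = act g (e x) := by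
    intro g x
    have h1 := Pull.act_apply (κ := H.subtype) g (e x)
    refine Eq.trans (b := Pull.mk H.subtype (act (g : G) (resFPsi H x))) ?_ h1.symm
    change resFPsi H (act g x) = act (g : G) (resFPsi H x)
    rw [act, resFPsi_smul]
    have h3 : resFPhi H (MonoidAlgebra.of ℤ H g) = MonoidAlgebra.of ℤ G (g : G) :=
      MonoidAlgebra.mapDomain_single
    rw [h3]
    rfl
  exact ⟨k, ⟨(LinearEquiv.funCongrLeft (ZG H) (ZG H) f).trans (mkEquiv e he)⟩⟩

theorem pull_ff {G : Type} [Group G] (H : Subgroup G) [H.FiniteIndex] (M : Type) [AddCommGroup M]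
    [Module (ZG G) M] (h : FF (ZG G) M) : FF (ZG H) (Pull H.subtype M) := by
  obtain ⟨k, ⟨e⟩⟩ := pull_self H
  exact cls_of_ff (cls23_pull H.subtype (cls23_ff (ZG H))) (ff_iso e ⟨0, inferInstance, inferInstance⟩)
    M h

theorem typeFF_subgroup (G : Type) [Group G] (h : TypeFF G) (H : Subgroup G) [H.FiniteIndex] :
    TypeFF H := by
  have h1 := pull_ff H (Triv G) (ff_of_typeFF G h)
  exact typeFF_of_ff _ (ff_iso (trivPull H.subtype) h1)

end Pool.Agent.VFL
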