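import Pool.Agent.VFL.Fi

/-!
# Restriction of modules, in Mathlib's form
-/

set_option linter.unusedSectionVars false

namespace Pool.Agent.VFL

open Pool.Agent.Hhelper49.Srr Pool.Agent.Hhelper49.Srf Pool.Agent.SFP

/-- the `ℤ[G]`-module `P`, restricted to the subgroup `H`, is stably free -/
def StFreeOn {G : Type} [Group G] (H : Subgroup G) (P : Type) [AddCommGroup P]
    [Module (MonoidAlgebra ℤ G) P] : Prop :=
  @StFree H _ P _ (Module.compHom P (MonoidAlgebra.mapDomainRingHom ℤ H.subtype))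

theorem stFree_congr {G : Type} [Group G] {P Q : Type} [AddCommGroup P] [AddCommGroup Q]
    [Module (MonoidAlgebra ℤ G) P] [Module (MonoidAlgebra ℤ G) Q]
    (e : P ≃ₗ[MonoidAlgebra ℤ G] Q) (h : StFree G P) : StFree G Q := by
  obtain ⟨a, b, ⟨f⟩⟩ := h
  exact ⟨a, b, ⟨(LinearEquiv.prodCongr e.symm (LinearEquiv.refl _ _)).trans f⟩⟩

theorem stFreeOn_iff {G : Type} [Group G] (H : Subgroup G) (P : Type) [AddCommGroup P]
    [Module (MonoidAlgebra ℤ G) P] : StFreeOn H P ↔ StFree H (Pull H.subtype P) := by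
  let i1 : Module (MonoidAlgebra ℤ H) P :=
    Module.compHom P (MonoidAlgebra.mapDomainRingHom ℤ H.subtype)
  have h1 : ∀ (g : H) (v : P), act g v = act (g : G) v := by
    intro g v
    change (MonoidAlgebra.mapDomainRingHom ℤ H.subtype (MonoidAlgebra.of ℤ H g)) • v = _
    rw [MonoidAlgebra.of_apply]
    change (MonoidAlgebra.mapDomain H.subtype (MonoidAlgebra.single g 1)) • v = _
    rw [MonoidAlgebra.mapDomain_single]
    rfl
  let e : P ≃ₗ[MonoidAlgebra ℤ H] Pull H.subtype P :=
    mkEquiv (A := P) (B := Pull H.subtype P) (AddEquiv.refl P) (by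
      intro g v
      have h3 := Pull.act_apply (κ := H.subtype) g (Pull.mk H.subtype v)
      refine Eq.trans ?_ h3.symm
      exact h1 g v)
  exact ⟨fun h => stFree_congr e h, fun h => stFree_congr e.symm h⟩

theorem stFreeOn_pow {G : Type} [Group G] (H : Subgroup G) (P : Type) [AddCommGroup P]
    [Module (MonoidAlgebra ℤ G) P] (m : ℕ) :
    StFreeOn H (Fin m → P) ↔ StFree H (Fin m → Pull H.subtype P) := by
  rw [stFreeOn_iff]
  obtain ⟨e⟩ := pull_pi H.subtype m P
  exact ⟨fun h => stFree_congr e.symm h, fun h => stFree_congr e h⟩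

end Pool.Agent.VFL
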