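import Pool.Agent.VFL.RestR
import Pool.Agent.SFP.Fin4

/-!
# The realisation theorem for groups of type (FP), with all subgroups of finite index
-/

set_option linter.unusedSectionVars false

namespace Pool.Agent.VFL

open Pool.Agent.Hhelper49.Srr Pool.Agent.Hhelper49.Srf Pool.Agent.SFP

theorem proj_pow {R : Type} [Ring R] (P : Type) [AddCommGroup P] [Module R P]
    (hP1 : Module.Finite R P) (hP2 : Module.Projective R P) (m : ℕ) :
    Module.Projective R (Fin m → P) := by
  obtain ⟨n, f, hf⟩ := Module.Finite.exists_fin' R P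
  obtain ⟨s, hs⟩ := Module.projective_lifting_property f LinearMap.id hf
  have hfs : ∀ p, f (s p) = p := fun p => LinearMap.congr_fun hs p
  refine Module.Projective.of_split (P := Fin m → P) (M := Fin m → Fin n → R)
    (s.compLeft (Fin m)) (f.compLeft (Fin m)) ?_
  apply LinearMap.ext
  intro v
  funext j
  exact hfs (v j)

/-- every finitely generated projective module `P` over a group `G` of type (FP) is a finiteness obstruction of a
group `R` with a retraction to `G`, and for every subgroup `H` of finite index the restriction of `P` to `H` is the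
finiteness obstruction of the preimage of `H` -/
theorem point_res (G : Type) [Group G] (hG : TypeFP G) (P : Type) [AddCommGroup P]
    [Module (MonoidAlgebra ℤ G) P] (hP1 : Module.Finite (MonoidAlgebra ℤ G) P)
    (hP2 : Module.Projective (MonoidAlgebra ℤ G) P) :
    ∃ (R : Type) (_ : Group R) (i : G →* R) (r : R →* G), (∀ g, r (i g) = g) ∧ TypeFP R ∧
      (∀ m, FreeRes m R ↔ StFree G (Fin m → P)) ∧
      ∀ H : Subgroup G, H.FiniteIndex → ∀ m, FreeRes m (H.comap r) ↔
        StFree H (Fin m → Pull H.subtype P) := by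
  set κ : G →* G × FreeGroup (Fin 1) := MonoidHom.inl G _ with hκd
  have hκ : Function.Injective κ := fun a b h => congrArg Prod.fst h
  obtain ⟨N, _, _, hN⟩ := exists_ind κ hκ P hP1 hP2
  obtain ⟨hN1, hN2⟩ := ind_proj hκ P N hN hP1 hP2
  obtain ⟨R, _, i, r, h1, h2, h3, h4⟩ := point_ff_res _ (typeFF_prod G hG) N hN1 hN2
  refine ⟨R, inferInstance, i.comp κ, (MonoidHom.fst G (FreeGroup (Fin 1))).comp r, ?_, h2, ?_, ?_⟩
  · intro g
    change (r (i (κ g))).1 = g
    rw [h1]
    rfl
  · intro m
    have hPm : FP (MonoidAlgebra ℤ G) (Fin m → P) :=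
      fp_pi (fun _ : Fin m => P) fun _ => ⟨0, hP1, hP2⟩
    rw [h3 m]
    have h5 : FF (MonoidAlgebra ℤ (G × FreeGroup (Fin 1))) (Fin m → N) ↔
        FF (MonoidAlgebra ℤ G) (Fin m → P) := by
      constructor
      · intro h
        exact ind_reduce hκ (Fin m → P) _ (desc_ret κ (MonoidHom.fst G (FreeGroup (Fin 1)))
          (fun g => rfl)) hPm (ind_pi _ _ m hN) h
      · intro h
        exact ind_ff hκ _ _ (ind_pi _ _ m hN) h
    rw [h5]
    exact ff_iff_stFree G _ (proj_pow P hP1 hP2 m)
  · intro H hH m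
    have : H.FiniteIndex := hH
    have h6 := h4 (H.comap (MonoidHom.fst G (FreeGroup (Fin 1)))) (comap_fin _ _) m
    have h7 : FreeRes m (H.comap ((MonoidHom.fst G (FreeGroup (Fin 1))).comp r)) ↔
        FreeRes m ((H.comap (MonoidHom.fst G (FreeGroup (Fin 1)))).comap r) := Iff.rfl
    rw [h7, h6]
    obtain ⟨h8, h9⟩ := pull_fin_proj H P hP1 hP2
    have hr : ∀ g : G, MonoidHom.fst G (FreeGroup (Fin 1)) (κ g) = g := fun _ => rfl
    have hm := mackey_res κ (MonoidHom.fst G (FreeGroup (Fin 1))) hr H hN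
    have hPm : FP (MonoidAlgebra ℤ H) (Fin m → Pull H.subtype P) :=
      fp_pi (fun _ : Fin m => Pull H.subtype P) fun _ => ⟨0, h8, h9⟩
    have h5 : FF (MonoidAlgebra ℤ (H.comap (MonoidHom.fst G (FreeGroup (Fin 1)))))
        (Fin m → Pull (H.comap (MonoidHom.fst G (FreeGroup (Fin 1)))).subtype N) ↔
        FF (MonoidAlgebra ℤ H) (Fin m → Pull H.subtype P) := by
      constructor
      · intro h
        exact ind_reduce (incH_inj κ _ hr H) (Fin m → Pull H.subtype P) _
          (desc_ret (incH κ _ hr H) (retH _ H) (retH_incH κ _ hr H)) hPm (ind_pi _ _ m hm) h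
      · intro h
        exact ind_ff (incH_inj κ _ hr H) _ _ (ind_pi _ _ m hm) h
    rw [h5]
    exact ff_iff_stFree H _ (proj_pow _ h8 h9 m)

end Pool.Agent.VFL
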