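import Pool.Agent.VFL.PullF

/-!
# The realisation theorem and subgroups of finite index
-/

set_option linter.unusedSectionVars false

namespace Pool.Agent.VFL

open Pool.Agent.Hhelper49.Srr Pool.Agent.Hhelper49.Srf Pool.Agent.SFP

theorem pull_pi {G K : Type} [Group G] [Group K] (κ : G →* K) (m : ℕ) (M : Type) [AddCommGroup M]
    [Module (ZG K) M] : Nonempty ((Fin m → Pull κ M) ≃ₗ[ZG G] Pull κ (Fin m → M)) := by
  refine ⟨mkEquiv (A := Fin m → Pull κ M) (B := Pull κ (Fin m → M)) (AddEquiv.refl (Fin m → M)) ?_⟩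
  intro g v
  have h3 := Pull.act_apply (κ := κ) g (Pull.mk κ (fun j => (v j).un))
  refine Eq.trans ?_ h3.symm
  funext j
  exact Pull.act_apply (κ := κ) g (v j)

/-- restriction of a finitely generated projective module -/
theorem pull_fin_proj {G : Type} [Group G] (H : Subgroup G) [H.FiniteIndex] (P : Type)
    [AddCommGroup P] [Module (ZG G) P] (h1 : Module.Finite (ZG G) P)
    (h2 : Module.Projective (ZG G) P) :
    Module.Finite (ZG H) (Pull H.subtype P) ∧ Module.Projective (ZG H) (Pull H.subtype P) := by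
  obtain ⟨n, f, hf⟩ := Module.Finite.exists_fin' (ZG G) P
  obtain ⟨s, hs⟩ := Module.projective_lifting_property f LinearMap.id hf
  have hfs : ∀ p, f (s p) = p := fun p => LinearMap.congr_fun hs p
  obtain ⟨k, ⟨e⟩⟩ := pull_self H
  obtain ⟨e1⟩ := pull_pi H.subtype n (ZG G)
  have e2 : (Fin n → Fin k → ZG H) ≃ₗ[ZG H] Pull H.subtype (Fin n → ZG G) :=
    (LinearEquiv.piCongrRight fun _ : Fin n => e).trans e1
  have h3 : Module.Finite (ZG H) (Pull H.subtype (Fin n → ZG G)) := Module.Finite.equiv e2
  have h4 : Module.Projective (ZG H) (Pull H.subtype (Fin n → ZG G)) :=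
    Module.Projective.of_equiv e2
  constructor
  · exact Module.Finite.of_surjective (pullLin H.subtype f) hf
  · refine Module.Projective.of_split (pullLin H.subtype s) (pullLin H.subtype f) ?_
    apply LinearMap.ext
    intro v
    exact hfs v

theorem comap_fin {G K : Type} [Group G] [Group K] (f : G →* K) (H : Subgroup K)
    [H.FiniteIndex] : (H.comap f).FiniteIndex := by
  constructor
  rw [Subgroup.index_comap]
  exact Subgroup.FiniteIndex.index_ne_zero

section
variable {R G : Type} [Group R] [Group G] (i : G →* R) (r : R →* G) (hr : ∀ g, r (i g) = g)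
  (H : Subgroup G)

/-- `H → r⁻¹(H)` -/
def incH : H →* H.comap r :=
  MonoidHom.mk' (fun h : H => ⟨i (h : G), by rw [Subgroup.mem_comap, hr]; exact h.2⟩) (by
    intro a b
    apply Subtype.ext
    exact map_mul i (a : G) (b : G))

/-- `r⁻¹(H) → H` -/
def retH : H.comap r →* H :=
  MonoidHom.mk' (fun x : H.comap r => ⟨r (x : R), x.2⟩) (by
    intro a b
    apply Subtype.ext
    exact map_mul r (a : R) (b : R))

theorem retH_incH (h : H) : retH r H (incH i r hr H h) = h := Subtype.ext (hr h)

theorem incH_inj : Function.Injective (incH i r hr H) := by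
  intro a b h
  rw [← retH_incH i r hr H a, ← retH_incH i r hr H b, h]

theorem mackey_res {M N : Type} [AddCommGroup M] [Module (MonoidAlgebra ℤ G) M] [AddCommGroup N]
    [Module (MonoidAlgebra ℤ R) N] (h : Induced i M N) :
    Induced (incH i r hr H) (Pull H.subtype M) (Pull (H.comap r).subtype N) := by
  refine ind_mackey i (H.comap r).subtype (incH i r hr H) H.subtype (fun _ => rfl) ?_ ?_ h
  · intro x
    refine ⟨⟨x * (i (r x))⁻¹, ?_⟩, r x, ?_⟩
    · rw [Subgroup.mem_comap, map_mul, map_inv, hr, mul_inv_cancel]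
      exact H.one_mem
    · change x = x * (i (r x))⁻¹ * i (r x)
      rw [inv_mul_cancel_right]
  · rintro g ⟨a, ha⟩
    have h1 : r (g : R) = a := by
      rw [← hr a, ha]
      rfl
    refine ⟨⟨a, ?_⟩, Subtype.ext ha⟩
    rw [← h1]
    exact g.2

end

/-- the realisation theorem for groups of type (FF), with all subgroups of finite index -/
theorem point_ff_res (G : Type) [Group G] (hG : TypeFF G) (P : Type) [AddCommGroup P]
    [Module (MonoidAlgebra ℤ G) P] (hP1 : Module.Finite (MonoidAlgebra ℤ G) P)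
    (hP2 : Module.Projective (MonoidAlgebra ℤ G) P) :
    ∃ (R : Type) (_ : Group R) (i : G →* R) (r : R →* G), (∀ g, r (i g) = g) ∧ TypeFP R ∧
      (∀ m, FreeRes m R ↔ FF (MonoidAlgebra ℤ G) (Fin m → P)) ∧
      ∀ H : Subgroup G, H.FiniteIndex → ∀ m, FreeRes m (H.comap r) ↔
        FF (MonoidAlgebra ℤ H) (Fin m → Pull H.subtype P) := by
  obtain ⟨n, f, hf⟩ := Module.Finite.exists_fin' (MonoidAlgebra ℤ G) P
  obtain ⟨s, hs⟩ := Module.projective_lifting_property f LinearMap.id hf
  have hfs : ∀ p, f (s p) = p := fun p => LinearMap.congr_fun hs p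
  obtain ⟨Gm, Rl, Sl, _, _, _, _, _, _, D, hD⟩ := enc n (matA f s)
  obtain ⟨hD1, ⟨e⟩⟩ := hD (ZG (HH D)) (phi D)
  have hinj : Function.Injective (relM (phi D) D) :=
    hD1 (mulA_inj (hq D) (chi D (sndG G)) (chi_hq D) f s hfs)
  have hbase : Induced (inc D) (Triv G)
      (Pull (chi D (sndG G)).ker.subtype (ZG (HH D) ⧸ JL D ∅)) := by
    refine base_ind (hq D) (chi D (sndG G)) (chi_hq D) (JL D ∅) ?_
    rw [JL]
    congr 1
    ext b
    simp
  have hU : Induced (inc D) P (Pull (chi D (sndG G)).ker.subtype ((Fin n → ZG (HH D)) ⧸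
      LinearMap.range (mulA (phi D) (matA f s)))) :=
    u_ind (hq D) (hq_inj D) (chi D (sndG G)) (chi_hq D) f s hfs
  have hGF := ff_of_typeFF G hG
  have hFP := main2 D (cls23_fp _) (fp_of_ff ⟨0, inferInstance, inferInstance⟩)
    (ind_fp (inc_inj D) _ _ hbase (fp_of_ff hGF)) hinj
  have eP := (cls23_pull (chi D (sndG G)).ker.subtype (cls23_fp (ZG (RR D))))
  refine ⟨RR D, inferInstance, inc D, ret D, ret_inc D, ?_, ?_, ?_⟩
  · apply typeFP_of_fp
    rw [hFP]
    exact eP.iso e.symm (ind_fp (inc_inj D) _ _ hU ⟨0, hP1, hP2⟩)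
  · intro m
    have hFF := main2 D (cls23_pow (cls23_ff _) m) (ff_pow m)
      (ff_pi (fun _ : Fin m => _) fun _ => ind_ff (inc_inj D) _ _ hbase hGF) hinj
    have eF := (cls23_pull (chi D (sndG G)).ker.subtype (cls23_pow (cls23_ff (ZG (RR D))) m))
    rw [freeRes_iff, hFF]
    constructor
    · intro h
      have h2 := eF.iso e h
      exact ind_reduce (inc_inj D) (Fin m → P) _ (desc_ret (inc D) (ret D) (ret_inc D))
        (fp_pi (fun _ : Fin m => P) fun _ => ⟨0, hP1, hP2⟩) (ind_pi _ _ m hU) h2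
    · intro h
      exact eF.iso e.symm (ind_ff (inc_inj D) _ _ (ind_pi _ _ m hU) h)
  · intro H hH m
    have : H.FiniteIndex := hH
    have hK : (H.comap (ret D)).FiniteIndex := comap_fin _ _
    have hC := cls23_pull (H.comap (ret D)).subtype
      (cls23_pow (cls23_ff (ZG (H.comap (ret D)))) m)
    have hb := mackey_res (inc D) (ret D) (ret_inc D) H hbase
    have hu := mackey_res (inc D) (ret D) (ret_inc D) H hU
    have hiH := incH_inj (inc D) (ret D) (ret_inc D) H
    have h0 : FF (ZG (H.comap (ret D))) (Fin m → Pull (H.comap (ret D)).subtype (ZG (RR D))) := by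
      obtain ⟨k, ⟨e'⟩⟩ := pull_self (H.comap (ret D))
      exact ff_pi (fun _ : Fin m => _) fun _ => ff_iso e' (ff_pow k)
    have hFF := main2 D hC h0
      (ff_pi (fun _ : Fin m => _) fun _ => ind_ff hiH _ _ hb (pull_ff H _ hGF)) hinj
    have eF := (cls23_pull (chi D (sndG G)).ker.subtype hC)
    obtain ⟨h1, h2⟩ := pull_fin_proj H P hP1 hP2
    have h3 : FreeRes m (H.comap (ret D)) ↔
        FF (ZG (H.comap (ret D))) (Fin m → Pull (H.comap (ret D)).subtype (Triv (RR D))) := by
      rw [freeRes_iff]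
      exact ⟨fun h => ff_iso (LinearEquiv.piCongrRight fun _ =>
          (trivPull (H.comap (ret D)).subtype).symm) h,
        fun h => ff_iso (LinearEquiv.piCongrRight fun _ =>
          (trivPull (H.comap (ret D)).subtype)) h⟩
    rw [h3, hFF]
    constructor
    · intro h
      have h2 := eF.iso e h
      exact ind_reduce hiH (Fin m → Pull H.subtype P) _
        (desc_ret (incH (inc D) (ret D) (ret_inc D) H) (retH (ret D) H)
          (retH_incH (inc D) (ret D) (ret_inc D) H))
        (fp_pi (fun _ : Fin m => Pull H.subtype P) fun _ => ⟨0, h1, by assumption⟩)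
        (ind_pi _ _ m hu) h2
    · intro h
      exact eF.iso e.symm (ind_ff hiH _ _ (ind_pi _ _ m hu) h)

end Pool.Agent.VFL
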