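import Pool.Agent.VFL.Ker
import Pool.Agent.Hhelper49.Srr.Final

/-!
# Subgroups of finite index: from prime index to finite index
-/

set_option linter.unusedSectionVars false

namespace Pool.Agent.VFL

open Pool.Agent.Hhelper49.Srr Pool.Agent.Hhelper49.Srf Pool.Agent.SFP
open scoped commutatorElement

theorem exists_prime_index (Q : Type) [Group Q] [Finite Q] [Nontrivial Q] [Group.IsSolvable Q] :
    ∃ M : Subgroup Q, M.Normal ∧ M.index.Prime := by
  have h1 : commutator Q < ⊤ := Group.IsSolvable.commutator_lt_top_of_nontrivial Q
  obtain ⟨M, hM1, hM2⟩ := (eq_top_or_exists_le_coatom (commutator Q)).resolve_left h1.ne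
  have hn : M.Normal := by
    constructor
    intro n hn g
    have h2 : g * n * g⁻¹ * n⁻¹ ∈ commutator Q := by
      rw [commutator_def]
      exact Subgroup.commutator_mem_commutator (Subgroup.mem_top g) (Subgroup.mem_top n)
    have h3 := M.mul_mem (hM2 h2) hn
    rwa [inv_mul_cancel_right] at h3
  refine ⟨M, hn, ?_⟩
  have hc : ∀ a b : Q ⧸ M, a * b = b * a := by
    intro a b
    induction a using QuotientGroup.induction_on with
    | H a =>
      induction b using QuotientGroup.induction_on with
      | H b =>
        rw [← QuotientGroup.mk_mul, ← QuotientGroup.mk_mul, QuotientGroup.eq]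
        apply hM2
        rw [commutator_def]
        have h4 : (a * b)⁻¹ * (b * a) = ⁅b⁻¹, a⁻¹⁆ := by
          rw [commutatorElement_def]
          group
        rw [h4]
        exact Subgroup.commutator_mem_commutator (Subgroup.mem_top _) (Subgroup.mem_top _)
  let _ : CommGroup (Q ⧸ M) := { (inferInstance : Group (Q ⧸ M)) with mul_comm := hc }
  have hnt : Nontrivial (Q ⧸ M) := by
    rw [← not_subsingleton_iff_nontrivial]
    intro hs
    exact hM1.1 (QuotientGroup.subgroup_eq_top_of_subsingleton M hs)
  have hs : IsSimpleGroup (Q ⧸ M) := by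
    constructor
    intro N _
    have h5 : M ≤ N.comap (QuotientGroup.mk' M) := by
      intro x hx
      rw [Subgroup.mem_comap, QuotientGroup.mk'_apply, (QuotientGroup.eq_one_iff x).2 hx]
      exact N.one_mem
    rcases eq_or_lt_of_le h5 with h6 | h6
    · left
      rw [eq_bot_iff]
      intro x hx
      induction x using QuotientGroup.induction_on with
      | H x =>
        rw [Subgroup.mem_bot, QuotientGroup.eq_one_iff, h6]
        exact hx
    · right
      have h7 := hM1.2 _ h6
      rw [eq_top_iff]
      intro x _
      induction x using QuotientGroup.induction_on with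
      | H x =>
        have h8 : x ∈ N.comap (QuotientGroup.mk' M) := by
          rw [h7]
          trivial
        exact h8
  have h9 := IsSimpleGroup.prime_card (α := Q ⧸ M)
  rwa [Subgroup.index]

/-- hyperelementary groups are solvable -/
theorem hyp_solvable {p : ℕ} (hp : p.Prime) {Q : Type} [Group Q] [Finite Q] (E : Subgroup Q)
    (h : IsHyp p E) : Group.IsSolvable E := by
  obtain ⟨C, hC, hn, hcyc, -, k, hk⟩ := h
  have : Fact p.Prime := ⟨hp⟩
  have hN : (C.subgroupOf E).Normal := by
    constructor
    intro n hn' g
    rw [Subgroup.mem_subgroupOf] at hn' ⊢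
    exact hn g g.2 n hn'
  rw [Group.isSolvable_iff_subgroup_quotient (C.subgroupOf E)]
  constructor
  · have e := Subgroup.subgroupOfEquivOfLe hC
    have hs : Group.IsSolvable C := by
      apply Group.isSolvable_of_comm
      intro a b
      exact (IsCyclic.isMulCommutative (α := C)).is_comm.comm a b
    exact Group.isSolvable_of_surjective (f := (e.symm : C →* C.subgroupOf E)) e.symm.surjective
  · have hcard : Nat.card (E ⧸ C.subgroupOf E) = p ^ k := by
      have h1 := Subgroup.card_eq_card_quotient_mul_card_subgroup (C.subgroupOf E)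
      have h2 : Nat.card (C.subgroupOf E) = Nat.card C :=
        Nat.card_congr (Subgroup.subgroupOfEquivOfLe hC).toEquiv
      rw [h2, hk, mul_comm (Nat.card C)] at h1
      have h3 : 0 < Nat.card C := Nat.card_pos
      exact (Nat.eq_of_mul_eq_mul_right h3 h1).symm
    have hpg : IsPGroup p (E ⧸ C.subgroupOf E) := IsPGroup.of_card hcard
    have := hpg.isNilpotent
    infer_instance

/-- in a group of type (FP) a normal subgroup of prime index of type (FF) forces type (FF) -/
def VirtP : Prop :=
  ∀ (G : Type) [Group G], TypeFP G → ∀ H : Subgroup G, H.Normal → H.index.Prime → TypeFF H →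
    TypeFF G

/-- in a group of type (FP) a subgroup of finite index of type (FF) forces type (FF) -/
def Virt : Prop :=
  ∀ (G : Type) [Group G], TypeFP G → ∀ H : Subgroup G, H.FiniteIndex → TypeFF H → TypeFF G

theorem typeFF_congr {G G' : Type} [Group G] [Group G'] (e : G ≃* G') (h : TypeFF G) : TypeFF G' := by
  rw [typeFF_iff] at h ⊢
  exact freeRes_congr 1 G G' e h

theorem solv_step (hV : VirtP) (n : ℕ) : ∀ (Γ : Type) [Group Γ], TypeFP Γ → ∀ (Q : Type) [Group Q]
    [Finite Q], Group.IsSolvable Q → ∀ (π : Γ →* Q), Function.Surjective π → Nat.card Q ≤ n →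
      TypeFF π.ker → TypeFF Γ := by
  induction n with
  | zero =>
    intro Γ _ _ Q _ _ _ π _ hn _
    have h1 : 0 < Nat.card Q := Nat.card_pos
    omega
  | succ n ih =>
    intro Γ _ hΓ Q _ _ hs π hπ hn hk
    rcases subsingleton_or_nontrivial Q with h1 | h1
    · have h2 : π.ker = ⊤ := by
        rw [eq_top_iff]
        intro x _
        rw [MonoidHom.mem_ker]
        exact Subsingleton.elim _ _
      rw [h2] at hk
      exact typeFF_congr Subgroup.topEquiv hk
    · obtain ⟨M, hM1, hM2⟩ := exists_prime_index Q
      have h3 : (M.comap π).index = M.index := Subgroup.index_comap_of_surjective M hπ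
      have h4 : (M.comap π).FiniteIndex := ⟨by rw [h3]; exact hM2.ne_zero⟩
      refine hV Γ hΓ (M.comap π) inferInstance (by rw [h3]; exact hM2) ?_
      have h5 : TypeFP (M.comap π) := typeFP_subgroup Γ hΓ (M.comap π)
      have h6 : Nat.card M ≤ n := by
        have h7 := M.card_mul_index
        have h8 := hM2.two_le
        have h9 : 0 < Nat.card M := Nat.card_pos
        nlinarith
      refine ih (M.comap π) h5 M inferInstance (π.subgroupComap M)
        (MonoidHom.subgroupComap_surjective_of_surjective π M hπ) h6 ?_
      refine typeFF_congr ?_ hk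
      have h10 : π.ker ≤ M.comap π := by
        intro x hx
        rw [Subgroup.mem_comap, MonoidHom.mem_ker.1 hx]
        exact M.one_mem
      refine (Subgroup.subgroupOfEquivOfLe h10).symm.trans (MulEquiv.subgroupCongr ?_)
      ext x
      rw [Subgroup.mem_subgroupOf, MonoidHom.mem_ker, MonoidHom.mem_ker]
      constructor
      · intro hx
        exact Subtype.ext hx
      · intro hx
        exact congrArg Subtype.val hx

theorem virt_of_virtP (hV : VirtP) : Virt := by
  intro G _ hG H hH hF
  by_contra hcon
  obtain ⟨p, hp, h1⟩ := final G hG hcon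
  have hfin : H.FiniteIndex := hH
  have hfq : Finite (G ⧸ H.normalCore) := inferInstance
  obtain ⟨E, hE, h2⟩ := h1 (G ⧸ H.normalCore) (QuotientGroup.mk' H.normalCore)
  apply h2 1 (Nat.coprime_one_left p)
  rw [← typeFF_iff]
  have hidx : (E.comap (QuotientGroup.mk' H.normalCore)).FiniteIndex := comap_fin _ _
  have hEFP : TypeFP (E.comap (QuotientGroup.mk' H.normalCore)) :=
    typeFP_subgroup G hG _
  refine solv_step hV (Nat.card E) _ hEFP E (hyp_solvable hp E hE)
    ((QuotientGroup.mk' H.normalCore).subgroupComap E)
    (MonoidHom.subgroupComap_surjective_of_surjective _ E (QuotientGroup.mk'_surjective _)) le_rfl ?_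
  have h3 : (H.normalCore.subgroupOf H).FiniteIndex := inferInstance
  have h4 : TypeFF (H.normalCore.subgroupOf H) := typeFF_subgroup H hF _
  have h5 : TypeFF H.normalCore :=
    typeFF_congr (Subgroup.subgroupOfEquivOfLe H.normalCore_le) h4
  refine typeFF_congr ?_ h5
  have h10 : H.normalCore ≤ E.comap (QuotientGroup.mk' H.normalCore) := by
    intro x hx
    rw [Subgroup.mem_comap, QuotientGroup.mk'_apply, (QuotientGroup.eq_one_iff x).2 hx]
    exact E.one_mem
  refine (Subgroup.subgroupOfEquivOfLe h10).symm.trans (MulEquiv.subgroupCongr ?_)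
  ext x
  rw [Subgroup.mem_subgroupOf, MonoidHom.mem_ker]
  constructor
  · intro hx
    apply Subtype.ext
    exact (QuotientGroup.eq_one_iff (x : G)).2 hx
  · intro hx
    exact (QuotientGroup.eq_one_iff (x : G)).1 (congrArg Subtype.val hx)

end Pool.Agent.VFL
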